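import Pool.Agent.W790.LG.Count

/-!
# Associative subloops of finite automorphic loops have the Lagrange property

`Q` is a finite loop all of whose inner mappings are automorphisms, `S` is a subloop of `Q` which is
a group.  Then the order of `S` divides the order of `Q`.
-/

set_option autoImplicit false

namespace Pool.Agent.Results.MP_62d712_al.AssociativeSubloops

/-- If a finite loop has the property that all its middle, left and right inner maps are
automorphisms, then the order of every associative subloop divides the order of the loop. -/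
theorem result :
    ∀ (Q : Type) [Fintype Q] (mul : Q → Q → Q) (e : Q),
    (∀ x, mul e x = x) → (∀ x, mul x e = x) →
    (∀ a b : Q, ∃! x, mul a x = b) → (∀ a b : Q, ∃! x, mul x a = b) →
    (∀ x u v a b c : Q, mul x a = mul u x → mul x b = mul v x →
        mul x c = mul (mul u v) x → c = mul a b) →
    (∀ x y u v a b c : Q, mul (mul x y) a = mul x (mul y u) →
        mul (mul x y) b = mul x (mul y v) →
        mul (mul x y) c = mul x (mul y (mul u v)) → c = mul a b) →
    (∀ x y u v a b c : Q, mul a (mul x y) = mul (mul u x) y →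
        mul b (mul x y) = mul (mul v x) y →
        mul c (mul x y) = mul (mul (mul u v) x) y → c = mul a b) →
    ∀ S : Finset Q, e ∈ S →
      (∀ a ∈ S, ∀ b ∈ S, mul a b ∈ S) →
      (∀ a ∈ S, ∀ b ∈ S, ∀ c ∈ S, mul (mul a b) c = mul a (mul b c)) →
      S.card ∣ Fintype.card Q := by
  intro Q _ mul e he1 he2 hL hR hT hLi hRi S heS hmulS hassoc
  have hbL : ∀ x, Function.Bijective (fun y => mul x y) := fun x =>
    (Function.bijective_iff_existsUnique _).2 (fun b => hL x b)
  have hbR : ∀ x, Function.Bijective (fun y => mul y x) := fun x =>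
    (Function.bijective_iff_existsUnique _).2 (fun b => hR x b)
  let A : Pool.Agent.H687R3.AL.AL Q :=
    { op := mul
      e := e
      idl := he1
      idr := he2
      bijL := hbL
      bijR := hbR
      autL := by
        intro x y z₁ z₂ w₁ w₂ h1 h2
        obtain ⟨c, hc⟩ := (hbL (mul y x)).2 (mul y (mul x (mul z₁ z₂)))
        have hc' : mul (mul y x) c = mul y (mul x (mul z₁ z₂)) := hc
        have h := hLi y x z₁ z₂ w₁ w₂ c h1 h2 hc'
        rw [← h]
        exact hc'
      autR := by
        intro x y z₁ z₂ w₁ w₂ h1 h2
        obtain ⟨c, hc⟩ := (hbR (mul x y)).2 (mul (mul (mul z₁ z₂) x) y)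
        have hc' : mul c (mul x y) = mul (mul (mul z₁ z₂) x) y := hc
        have h := hRi x y z₁ z₂ w₁ w₂ c h1 h2 hc'
        rw [← h]
        exact hc'
      autT := by
        intro x z₁ z₂ w₁ w₂ h1 h2
        obtain ⟨c, hc⟩ := (hbL x).2 (mul (mul w₁ w₂) x)
        have hc' : mul x c = mul (mul w₁ w₂) x := hc
        have h := hT x w₁ w₂ z₁ z₂ c h1.symm h2.symm hc'
        rw [← h]
        exact hc'.symm }
  exact Pool.Agent.W790.LG.lagrange_assoc A S ⟨heS, hmulS, hassoc⟩

end Pool.Agent.Results.MP_62d712_al.AssociativeSubloops
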