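import Pool.Agent.W790.LG.NilMain

/-!
# Lagrange property for subloops with Sylow subloops whose right multiplication group is a p-group

`Q` is a finite loop all of whose inner mappings are automorphisms, `S` is a subloop of `Q` such
that for every prime `p` dividing the order of `S` there is a subloop `T` of `S` whose order is the
full power of `p` dividing the order of `S`, and such that the group generated by the right
translations by the elements of `T` acts on `T` as a `p`-group (this holds if `T` is centrally
nilpotent, in particular if `T` is a group).  Then the order of `S` divides the order of `Q`.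
-/

set_option autoImplicit false

namespace Pool.Agent.Results.MP_62d712_al.NilpotentSylow

/-- If a finite loop has the property that all its middle, left and right inner maps are
automorphisms, and `S` is a subloop which for every prime `p` dividing its order has a Sylow
`p`-subloop `T` whose right multiplication group is a `p`-group, then the order of `S` divides the
order of the loop. -/
theorem result :
    ∀ (Q : Type) [Fintype Q] (mul : Q → Q → Q) (e : Q),
    (∀ x, mul e x = x) → (∀ x, mul x e = x) →
    (∀ a b : Q, ∃! x, mul a x = b) → (∀ a b : Q, ∃! x, mul x a = b) →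
    (∀ x u v a b c : Q, mul x a = mul u x → mul x b = mul v x →
        mul x c = mul (mul u v) x → c = mul a b) →
    (∀ x y u v a b c : Q, mul (mul x y) a = mul x (mul y u) →
        mul (mul x y) b = mul x (mul y v) →
        mul (mul x y) c = mul x (mul y (mul u v)) → c = mul a b) →
    (∀ x y u v a b c : Q, mul a (mul x y) = mul (mul u x) y →
        mul b (mul x y) = mul (mul v x) y →
        mul c (mul x y) = mul (mul (mul u v) x) y → c = mul a b) →
    ∀ S : Finset Q, e ∈ S →
      (∀ a ∈ S, ∀ b ∈ S, mul a b ∈ S) →
      (∀ p : ℕ, p.Prime → p ∣ S.card → ∃ T : Finset Q, T ⊆ S ∧ e ∈ T ∧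
        (∀ a ∈ T, ∀ b ∈ T, mul a b ∈ T) ∧
        T.card = p ^ S.card.factorization p ∧
        ∀ g ∈ Subgroup.closure {r : Equiv.Perm Q | ∃ t ∈ T, ∀ x, r x = mul x t},
          ∃ k : ℕ, ∀ t ∈ T, (g ^ (p ^ k)) t = t) →
      S.card ∣ Fintype.card Q := by
  intro Q _ mul e he1 he2 hL hR hT hLi hRi S heS hmulS hsyl
  have hbL : ∀ x, Function.Bijective (fun y => mul x y) := fun x =>
    (Function.bijective_iff_existsUnique _).2 (fun b => hL x b)
  have hbR : ∀ x, Function.Bijective (fun y => mul y x) := fun x =>
    (Function.bijective_iff_existsUnique _).2 (fun b => hR x b)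
  let A : Pool.Agent.H687R3.AL.AL Q :=
    { op := mul
      e := e
      idl := he1
      idr := he2
      bijL := hbL
      bijR := hbR
      autL := by
        intro x y z₁ z₂ w₁ w₂ h1 h2
        obtain ⟨c, hc⟩ := (hbL (mul y x)).2 (mul y (mul x (mul z₁ z₂)))
        have hc' : mul (mul y x) c = mul y (mul x (mul z₁ z₂)) := hc
        have h := hLi y x z₁ z₂ w₁ w₂ c h1 h2 hc'
        rw [← h]
        exact hc'
      autR := by
        intro x y z₁ z₂ w₁ w₂ h1 h2
        obtain ⟨c, hc⟩ := (hbR (mul x y)).2 (mul (mul (mul z₁ z₂) x) y)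
        have hc' : mul c (mul x y) = mul (mul (mul z₁ z₂) x) y := hc
        have h := hRi x y z₁ z₂ w₁ w₂ c h1 h2 hc'
        rw [← h]
        exact hc'
      autT := by
        intro x z₁ z₂ w₁ w₂ h1 h2
        obtain ⟨c, hc⟩ := (hbL x).2 (mul (mul w₁ w₂) x)
        have hc' : mul x c = mul (mul w₁ w₂) x := hc
        have h := hT x w₁ w₂ z₁ z₂ c h1.symm h2.symm hc'
        rw [← h]
        exact hc'.symm }
  have hS0 : S.card ≠ 0 := by
    rw [Ne, Finset.card_eq_zero]
    intro h
    rw [h] at heS
    exact absurd heS (Finset.notMem_empty e)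
  rw [Nat.dvd_iff_prime_pow_dvd_dvd]
  intro p k hp hpk
  rcases Nat.eq_zero_or_pos k with rfl | hk
  · simp
  obtain ⟨T, _, heT, hmulT, hcT, hg⟩ := hsyl p hp ((dvd_pow_self p hk.ne').trans hpk)
  have hH : Pool.Agent.W790.LG.HP A (T : Set Q) p := by
    intro g hgM
    refine hg g ?_
    refine Subgroup.closure_mono ?_ hgM
    rintro _ ⟨t, ht, rfl⟩
    exact ⟨t, ht, fun x => rfl⟩
  have h1 := Pool.Agent.W790.LG.lagrange_p hp A T ⟨heT, hmulT⟩ hH
  rw [hcT] at h1
  exact (pow_dvd_pow p ((hp.pow_dvd_iff_le_factorization hS0).1 hpk)).trans h1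

end Pool.Agent.Results.MP_62d712_al.NilpotentSylow
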